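import Mathlib

set_option autoImplicit false

namespace Pool.Agent.Results.MP_c4a975_al.EveryCharacteristic

/-- The ring `R` (not assumed associative, commutative or unital) is right alternative. -/
def RightAlternative (R : Type) [NonUnitalNonAssocRing R] : Prop :=
  ∀ x y : R, (x * y) * y = x * (y * y)

section Defs

variable {R : Type} [NonUnitalNonAssocRing R]

/-- The additive subgroup spanned by all products `a * b` with `a` in `A` and `b` in `B`. -/
def prod (A B : AddSubgroup R) : AddSubgroup R :=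
  AddSubgroup.closure {z | ∃ a ∈ A, ∃ b ∈ B, z = a * b}

/-- `I` is a two-sided ideal of `R`. -/
def IsIdeal (I : AddSubgroup R) : Prop := ∀ r : R, ∀ a ∈ I, r * a ∈ I ∧ a * r ∈ I

/-- `I` is a minimal ideal of `R`. -/
def IsMinimalIdeal (I : AddSubgroup R) : Prop :=
  IsIdeal I ∧ I ≠ ⊥ ∧ ∀ J : AddSubgroup R, IsIdeal J → J ≤ I → J = ⊥ ∨ J = I

/-- `J` is a two-sided ideal of the ring `I`. -/
def IsIdealOf (J I : AddSubgroup R) : Prop :=
  J ≤ I ∧ ∀ r ∈ I, ∀ a ∈ J, r * a ∈ J ∧ a * r ∈ J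

/-- `I` is simple as a ring. -/
def IsSimpleAsRing (I : AddSubgroup R) : Prop :=
  prod I I ≠ ⊥ ∧ ∀ J : AddSubgroup R, IsIdealOf J I → J = ⊥ ∨ J = I

/-- The derived series of `I`. -/
def derived (I : AddSubgroup R) : ℕ → AddSubgroup R
  | 0 => I
  | k + 1 => prod (derived I k) (derived I k)

/-- `I` is solvable. -/
def IsSolvableIdeal (I : AddSubgroup R) : Prop := ∃ k, derived I k = ⊥

/-- The right powers of `I`: `rightPow I n` is the `(n + 1)`-st right power. -/
def rightPow (I : AddSubgroup R) : ℕ → AddSubgroup R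
  | 0 => I
  | n + 1 => prod (rightPow I n) I

/-- `I` is right nilpotent. -/
def IsRightNilpotent (I : AddSubgroup R) : Prop := ∃ n, rightPow I n = ⊥

end Defs

/-! ### The abstract construction -/

section Abstract

variable (K : Type) {P O : Type} [Field K] [AddCommGroup P] [Module K P] [AddCommGroup O]
  [Module K O]

/-- Underlying group of the ring; coordinates `(α, β; z, d, e; p₁, p₂; q₁, q₂)`. -/
abbrev V (K P O : Type) [Field K] [AddCommGroup P] [Module K P] [AddCommGroup O]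
    [Module K O] : Type :=
  Module.End K O × K × O × O × O × P × P × O × O

/-- The ring attached to biadditive maps `m : P × O → O` and `n : O × O → P`. -/
def A (_m : P →+ O →+ O) (_n : O →+ O →+ P) : Type := V K P O

variable (m : P →+ O →+ O) (n : O →+ O →+ P)

noncomputable instance : AddCommGroup (A K m n) := inferInstanceAs (AddCommGroup (V K P O))

/-- The multiplication. -/
noncomputable def mulA (x y : V K P O) : V K P O :=
  let (α, β, _z, d, e, p1, p2, q1, q2) := x
  let (α', β', z', d', e', p1', p2', q1', q2') := y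
  (0, 0, (β • d' - α e' + α' e - β' • d) + (m p1 q2' - m p2 q1' + m p2' q1 - m p1' q2),
    α z', β • z', n q1 z', -n q2 z', m p1 z', m p2 z')

noncomputable instance : Mul (A K m n) := ⟨fun x y => mulA K m n x y⟩

/-- Constructor. -/
def mk (α : Module.End K O) (β : K) (z d e : O) (p1 p2 : P) (q1 q2 : O) : A K m n :=
  ((α, β, z, d, e, p1, p2, q1, q2) : V K P O)

lemma mk_surj (x : A K m n) : ∃ α β z d e p1 p2 q1 q2, x = mk K m n α β z d e p1 p2 q1 q2 :=
  ⟨_, _, _, _, _, _, _, _, _, rfl⟩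

lemma mk_mul (α : Module.End K O) (β : K) (z d e : O) (p1 p2 : P) (q1 q2 : O)
    (α' : Module.End K O) (β' : K) (z' d' e' : O) (p1' p2' : P) (q1' q2' : O) :
    mk K m n α β z d e p1 p2 q1 q2 * mk K m n α' β' z' d' e' p1' p2' q1' q2' =
      mk K m n 0 0
        ((β • d' - α e' + α' e - β' • d) + (m p1 q2' - m p2 q1' + m p2' q1 - m p1' q2))
        (α z') (β • z') (n q1 z') (-n q2 z') (m p1 z') (m p2 z') := rfl

lemma mk_add (α : Module.End K O) (β : K) (z d e : O) (p1 p2 : P) (q1 q2 : O)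
    (α' : Module.End K O) (β' : K) (z' d' e' : O) (p1' p2' : P) (q1' q2' : O) :
    mk K m n α β z d e p1 p2 q1 q2 + mk K m n α' β' z' d' e' p1' p2' q1' q2' =
      mk K m n (α + α') (β + β') (z + z') (d + d') (e + e') (p1 + p1') (p2 + p2')
        (q1 + q1') (q2 + q2') := rfl

lemma mk_neg (α : Module.End K O) (β : K) (z d e : O) (p1 p2 : P) (q1 q2 : O) :
    -mk K m n α β z d e p1 p2 q1 q2 =
      mk K m n (-α) (-β) (-z) (-d) (-e) (-p1) (-p2) (-q1) (-q2) := rfl

lemma mk_zero : (0 : A K m n) = mk K m n 0 0 0 0 0 0 0 0 0 := rfl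

lemma mk_congr {α α' : Module.End K O} {β β' : K} {z z' d d' e e' : O} {p1 p1' p2 p2' : P}
    {q1 q1' q2 q2' : O} (hα : α = α') (hβ : β = β') (hz : z = z') (hd : d = d') (he : e = e')
    (hp1 : p1 = p1') (hp2 : p2 = p2') (hq1 : q1 = q1') (hq2 : q2 = q2') :
    mk K m n α β z d e p1 p2 q1 q2 = mk K m n α' β' z' d' e' p1' p2' q1' q2' := by
  subst hα hβ hz hd he hp1 hp2 hq1 hq2; rfl

lemma mk_inj {α α' : Module.End K O} {β β' : K} {z z' d d' e e' : O} {p1 p1' p2 p2' : P}
    {q1 q1' q2 q2' : O}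
    (h : mk K m n α β z d e p1 p2 q1 q2 = mk K m n α' β' z' d' e' p1' p2' q1' q2') :
    α = α' ∧ β = β' ∧ z = z' ∧ d = d' ∧ e = e' ∧ p1 = p1' ∧ p2 = p2' ∧ q1 = q1' ∧ q2 = q2' := by
  have h' : ((α, β, z, d, e, p1, p2, q1, q2) : V K P O) =
    (α', β', z', d', e', p1', p2', q1', q2') := h
  simpa only [Prod.mk.injEq] using h'

lemma A_left_distrib (x y w : A K m n) : x * (y + w) = x * y + x * w := by
  obtain ⟨α, β, z, d, e, p1, p2, q1, q2, rfl⟩ := mk_surj K m n x
  obtain ⟨α', β', z', d', e', p1', p2', q1', q2', rfl⟩ := mk_surj K m n y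
  obtain ⟨α'', β'', z'', d'', e'', p1'', p2'', q1'', q2'', rfl⟩ := mk_surj K m n w
  rw [mk_add, mk_mul, mk_mul, mk_mul, mk_add]
  apply mk_congr <;>
    simp only [map_add, AddMonoidHom.add_apply, LinearMap.add_apply, smul_add, add_smul, neg_add,
      add_zero] <;> abel

lemma A_right_distrib (x y w : A K m n) : (x + y) * w = x * w + y * w := by
  obtain ⟨α, β, z, d, e, p1, p2, q1, q2, rfl⟩ := mk_surj K m n x
  obtain ⟨α', β', z', d', e', p1', p2', q1', q2', rfl⟩ := mk_surj K m n y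
  obtain ⟨α'', β'', z'', d'', e'', p1'', p2'', q1'', q2'', rfl⟩ := mk_surj K m n w
  rw [mk_add, mk_mul, mk_mul, mk_mul, mk_add]
  apply mk_congr <;>
    simp only [map_add, AddMonoidHom.add_apply, LinearMap.add_apply, smul_add, add_smul, neg_add,
      add_zero] <;> abel

noncomputable instance : NonUnitalNonAssocRing (A K m n) :=
  { (inferInstance : AddCommGroup (A K m n)), (inferInstance : Mul (A K m n)) with
    left_distrib := A_left_distrib K m n
    right_distrib := A_right_distrib K m n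
    zero_mul := by
      intro x
      have h := A_right_distrib K m n 0 0 x
      rw [add_zero] at h
      exact left_eq_add.mp h
    mul_zero := by
      intro x
      have h := A_left_distrib K m n x 0 0
      rw [add_zero] at h
      exact left_eq_add.mp h }

/-- The identities needed for the maps `m` and `n`. -/
structure Ax : Prop where
  mn : ∀ q z, m (n q z) z = 0
  nm : ∀ p z, n (m p z) z = 0
  mm : ∀ p p' z, m p (m p' z) = m p' (m p z)
  mnq : ∀ q q' z, m (n q z) q' = -m (n q' z) q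

variable {m n}

lemma right_alt (H : Ax m n) : RightAlternative (A K m n) := by
  intro x y
  obtain ⟨α, β, z, d, e, p1, p2, q1, q2, rfl⟩ := mk_surj K m n x
  obtain ⟨α', β', z', d', e', p1', p2', q1', q2', rfl⟩ := mk_surj K m n y
  simp only [mk_mul]
  have z1 : (β' • d' - α' e' + α' e' - β' • d') +
      (m p1' q2' - m p2' q1' + m p2' q1' - m p1' q2') = 0 := by abel
  rw [z1]
  apply mk_congr
  · rfl
  · rfl
  · simp only [zero_smul, LinearMap.zero_apply, map_zero, AddMonoidHom.zero_apply, sub_zero,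
      zero_add, add_zero, map_neg, AddMonoidHom.neg_apply, map_smul]
    rw [H.mnq q1 q2' z', H.mnq q2 q1' z', H.mm p2' p1, H.mm p1' p2]
    abel
  · simp
  · simp
  · simp [H.nm]
  · simp [H.nm]
  · simp [H.mn]
  · simp [H.mn]

lemma moufang (H : Ax m n) (x y w : A K m n) : ((x * y) * w) * y = x * ((y * w) * y) := by
  obtain ⟨α, β, z, d, e, p1, p2, q1, q2, rfl⟩ := mk_surj K m n x
  obtain ⟨α', β', S, d', e', p1', p2', q1', q2', rfl⟩ := mk_surj K m n y
  obtain ⟨α'', β'', T, d'', e'', p1'', p2'', q1'', q2'', rfl⟩ := mk_surj K m n w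
  have mnl : ∀ q, m (n q S) T = -m (n q T) S := by
    intro q
    have h := H.mn q (S + T)
    simp only [map_add, AddMonoidHom.add_apply, H.mn, zero_add, add_zero] at h
    rw [eq_neg_iff_add_eq_zero, add_comm]; exact h
  have nml : ∀ p, n (m p S) T = -n (m p T) S := by
    intro p
    have h := H.nm p (S + T)
    simp only [map_add, AddMonoidHom.add_apply, H.nm, zero_add, add_zero] at h
    rw [eq_neg_iff_add_eq_zero, add_comm]; exact h
  simp only [mk_mul]
  have z1 : ((0 : K) • d' - (0 : Module.End K O) e' + α' (β' • T) - β' • α' T) +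
      (m (n q1' T) q2' - m (-n q2' T) q1' + m p2' (m p1' T) - m p1' (m p2' T)) = 0 := by
    rw [H.mm p2' p1', H.mnq q1' q2' T]
    simp
  rw [z1]
  apply mk_congr
  · rfl
  · rfl
  · have a1 : ∀ p q, m (n (m p S) T) q = -m p (m (n q T) S) := by
      intro p q; rw [H.mnq, H.mm]
    have a2 : ∀ p q, m p (m (n q S) T) = -m (n (m p T) S) q := by
      intro p q; rw [H.mm, H.mnq]
    simp only [zero_smul, LinearMap.zero_apply, map_zero, AddMonoidHom.zero_apply, sub_zero,
      zero_add, add_zero, map_neg, AddMonoidHom.neg_apply, a1, a2, smul_zero]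
    abel
  · simp
  · simp
  · simp [mnl, H.nm]
  · simp [mnl, H.nm]
  · simp [nml, H.mn]
  · simp [nml, H.mn]

/-! ### The ideal -/

variable (m n)

/-- The subgroup of `P` generated by the values of `n`. -/
def PP : AddSubgroup P := AddSubgroup.closure {p | ∃ q z, p = n q z}

/-- The ideal. -/
noncomputable def I : AddSubgroup (A K m n) where
  carrier := {x | ∃ z d e p1 p2 q1 q2, x = mk K m n 0 0 z d e p1 p2 q1 q2 ∧ p1 ∈ PP n ∧ p2 ∈ PP n}
  zero_mem' := ⟨0, 0, 0, 0, 0, 0, 0, rfl, zero_mem _, zero_mem _⟩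
  add_mem' := by
    rintro _ _ ⟨z, d, e, p1, p2, q1, q2, rfl, h1, h2⟩ ⟨z', d', e', p1', p2', q1', q2', rfl, h1', h2'⟩
    refine ⟨z + z', d + d', e + e', p1 + p1', p2 + p2', q1 + q1', q2 + q2', ?_,
      add_mem h1 h1', add_mem h2 h2'⟩
    rw [mk_add, add_zero, add_zero]
  neg_mem' := by
    rintro _ ⟨z, d, e, p1, p2, q1, q2, rfl, h1, h2⟩
    refine ⟨-z, -d, -e, -p1, -p2, -q1, -q2, ?_, neg_mem h1, neg_mem h2⟩
    rw [mk_neg, neg_zero, neg_zero]

lemma n_mem (q z : O) : n q z ∈ PP n := AddSubgroup.subset_closure ⟨q, z, rfl⟩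

lemma mul_mem_I (x y : A K m n) : x * y ∈ I K m n := by
  obtain ⟨α, β, z, d, e, p1, p2, q1, q2, rfl⟩ := mk_surj K m n x
  obtain ⟨α', β', z', d', e', p1', p2', q1', q2', rfl⟩ := mk_surj K m n y
  exact ⟨_, _, _, _, _, _, _, mk_mul K m n _ _ _ _ _ _ _ _ _ _ _ _ _ _ _ _ _ _, n_mem n _ _,
    neg_mem (n_mem n _ _)⟩

lemma I_ideal : IsIdeal (I K m n) := fun r a _ => ⟨mul_mem_I K m n r a, mul_mem_I K m n a r⟩

noncomputable def gA (α : Module.End K O) : A K m n := mk K m n α 0 0 0 0 0 0 0 0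
noncomputable def gB : A K m n := mk K m n 0 1 0 0 0 0 0 0 0
noncomputable def eT (z : O) : A K m n := mk K m n 0 0 z 0 0 0 0 0 0
noncomputable def eD (z : O) : A K m n := mk K m n 0 0 0 z 0 0 0 0 0
noncomputable def eE (z : O) : A K m n := mk K m n 0 0 0 0 z 0 0 0 0
noncomputable def eP1 (p : P) : A K m n := mk K m n 0 0 0 0 0 p 0 0 0
noncomputable def eP2 (p : P) : A K m n := mk K m n 0 0 0 0 0 0 p 0 0
noncomputable def eQ1 (q : O) : A K m n := mk K m n 0 0 0 0 0 0 0 q 0
noncomputable def eQ2 (q : O) : A K m n := mk K m n 0 0 0 0 0 0 0 0 q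

lemma A_T (α : Module.End K O) (z : O) : gA K m n α * eT K m n z = eD K m n (α z) := by
  unfold gA eT eD; rw [mk_mul]; simp
lemma B_T (z : O) : gB K m n * eT K m n z = eE K m n z := by
  unfold gB eT eE; rw [mk_mul]; simp
lemma B_D (z : O) : gB K m n * eD K m n z = eT K m n z := by
  unfold gB eD eT; rw [mk_mul]; simp
lemma P1_T (p : P) (z : O) : eP1 K m n p * eT K m n z = eQ1 K m n (m p z) := by
  unfold eP1 eT eQ1; rw [mk_mul]; simp
lemma P2_T (p : P) (z : O) : eP2 K m n p * eT K m n z = eQ2 K m n (m p z) := by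
  unfold eP2 eT eQ2; rw [mk_mul]; simp
lemma Q1_T (q z : O) : eQ1 K m n q * eT K m n z = eP1 K m n (n q z) := by
  unfold eP1 eT eQ1; rw [mk_mul]; simp
lemma Q2_T (q z : O) : eQ2 K m n q * eT K m n z = -eP2 K m n (n q z) := by
  unfold eP2 eT eQ2; rw [mk_mul, mk_neg]; simp
lemma P1_Q2 (p : P) (q : O) : eP1 K m n p * eQ2 K m n q = eT K m n (m p q) := by
  unfold eP1 eT eQ2; rw [mk_mul]; simp

lemma minimal (one : P) (hone : ∀ z, m one z = z) (hP : ∀ p, (∀ w, m p w = 0) → p = 0)
    (J : AddSubgroup (A K m n)) (hJ : IsIdeal J) (hJI : J ≤ I K m n) : J = ⊥ ∨ J = I K m n := by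
  by_cases hbot : J = ⊥
  · exact Or.inl hbot
  right
  obtain ⟨⟨u, huJ⟩, hu0'⟩ := AddSubgroup.ne_bot_iff_exists_ne_zero.mp hbot
  have hu0 : u ≠ 0 := fun h => hu0' (Subtype.ext h)
  -- a nonzero element `eT w` in `J`
  have hw : ∃ w : O, w ≠ 0 ∧ eT K m n w ∈ J := by
    by_contra hno
    push Not at hno
    have hz : ∀ w, eT K m n w ∈ J → w = 0 := fun w hw => by
      by_contra h; exact hno w h hw
    obtain ⟨z, d, e, p1, p2, q1, q2, rfl, -, -⟩ := hJI huJ
    have h1 : d = 0 := by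
      have h := (hJ (gB K m n) _ huJ).2
      have e1 : mk K m n 0 0 z d e p1 p2 q1 q2 * gB K m n = eT K m n (-d) := by
        unfold gB eT; rw [mk_mul]; simp
      rw [e1] at h
      exact neg_eq_zero.mp (hz _ h)
    have h2 : e = 0 := by
      have h := (hJ (gA K m n 1) _ huJ).2
      have e1 : mk K m n 0 0 z d e p1 p2 q1 q2 * gA K m n 1 = eT K m n e := by
        unfold gA eT; rw [mk_mul]; simp
      rw [e1] at h
      exact hz _ h
    have h3 : q2 = 0 := by
      have h := (hJ (eP1 K m n one) _ huJ).2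
      have e1 : mk K m n 0 0 z d e p1 p2 q1 q2 * eP1 K m n one = eT K m n (-q2) := by
        unfold eP1 eT; rw [mk_mul]; simp [hone]
      rw [e1] at h
      exact neg_eq_zero.mp (hz _ h)
    have h4 : q1 = 0 := by
      have h := (hJ (eP2 K m n one) _ huJ).2
      have e1 : mk K m n 0 0 z d e p1 p2 q1 q2 * eP2 K m n one = eT K m n q1 := by
        unfold eP2 eT; rw [mk_mul]; simp [hone]
      rw [e1] at h
      exact hz _ h
    have h5 : p1 = 0 := by
      refine hP _ fun w => ?_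
      have h := (hJ (eQ2 K m n w) _ huJ).2
      have e1 : mk K m n 0 0 z d e p1 p2 q1 q2 * eQ2 K m n w = eT K m n (m p1 w) := by
        unfold eQ2 eT; rw [mk_mul]; simp
      rw [e1] at h
      exact hz _ h
    have h6 : p2 = 0 := by
      refine hP _ fun w => ?_
      have h := (hJ (eQ1 K m n w) _ huJ).2
      have e1 : mk K m n 0 0 z d e p1 p2 q1 q2 * eQ1 K m n w = eT K m n (-m p2 w) := by
        unfold eQ1 eT; rw [mk_mul]; simp
      rw [e1] at h
      exact neg_eq_zero.mp (hz _ h)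
    subst h1 h2 h3 h4 h5 h6
    have h7 : z = 0 := by
      have h := (hJ (gA K m n 1) _ huJ).1
      have e1 : gA K m n 1 * mk K m n 0 0 z 0 0 0 0 0 0 = eD K m n z := by
        unfold gA eD; rw [mk_mul]; simp
      rw [e1] at h
      have h' := (hJ (gB K m n) _ h).1
      rw [B_D] at h'
      exact hz _ h'
    subst h7
    exact hu0 rfl
  obtain ⟨w, hw0, hwJ⟩ := hw
  have hT : ∀ z, eT K m n z ∈ J := by
    intro z
    have hφ : ∃ φ : Module.Dual K O, φ w ≠ 0 := by
      by_contra h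
      push Not at h
      exact hw0 ((Module.forall_dual_apply_eq_zero_iff K w).mp h)
    obtain ⟨φ, hφ⟩ := hφ
    have h := (hJ (gA K m n ((φ w)⁻¹ • φ.smulRight z)) _ hwJ).1
    rw [A_T] at h
    have h' := (hJ (gB K m n) _ h).1
    rw [B_D] at h'
    have e1 : ((φ w)⁻¹ • φ.smulRight z : Module.End K O) w = z := by
      rw [LinearMap.smul_apply, LinearMap.smulRight_apply, smul_smul, inv_mul_cancel₀ hφ, one_smul]
    rwa [e1] at h'
  have hD : ∀ z, eD K m n z ∈ J := fun z => by
    have h := (hJ (gA K m n 1) _ (hT z)).1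
    rwa [A_T] at h
  have hE : ∀ z, eE K m n z ∈ J := fun z => by
    have h := (hJ (gB K m n) _ (hT z)).1
    rwa [B_T] at h
  have hQ1 : ∀ z, eQ1 K m n z ∈ J := fun z => by
    have h := (hJ (eP1 K m n one) _ (hT z)).1
    rwa [P1_T, hone] at h
  have hQ2 : ∀ z, eQ2 K m n z ∈ J := fun z => by
    have h := (hJ (eP2 K m n one) _ (hT z)).1
    rwa [P2_T, hone] at h
  have hP1 : ∀ p ∈ PP n, eP1 K m n p ∈ J := by
    intro p hp
    induction hp using AddSubgroup.closure_induction with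
    | mem p h =>
      obtain ⟨q, z, rfl⟩ := h
      rw [← Q1_T]; exact (hJ _ _ (hT z)).1
    | zero => exact zero_mem J
    | add a b _ _ ha hb =>
      have : eP1 K m n (a + b) = eP1 K m n a + eP1 K m n b := by
        unfold eP1; rw [mk_add]; simp
      rw [this]; exact add_mem ha hb
    | neg a _ ha =>
      have : eP1 K m n (-a) = -eP1 K m n a := by
        unfold eP1; rw [mk_neg]; simp
      rw [this]; exact neg_mem ha
  have hP2 : ∀ p ∈ PP n, eP2 K m n p ∈ J := by
    intro p hp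
    induction hp using AddSubgroup.closure_induction with
    | mem p h =>
      obtain ⟨q, z, rfl⟩ := h
      have h2 := neg_mem (hJ (eQ2 K m n q) _ (hT z)).1
      rwa [Q2_T, neg_neg] at h2
    | zero => exact zero_mem J
    | add a b _ _ ha hb =>
      have : eP2 K m n (a + b) = eP2 K m n a + eP2 K m n b := by
        unfold eP2; rw [mk_add]; simp
      rw [this]; exact add_mem ha hb
    | neg a _ ha =>
      have : eP2 K m n (-a) = -eP2 K m n a := by
        unfold eP2; rw [mk_neg]; simp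
      rw [this]; exact neg_mem ha
  refine le_antisymm hJI ?_
  rintro _ ⟨z, d, e, p1, p2, q1, q2, rfl, h1, h2⟩
  have hsum : mk K m n 0 0 z d e p1 p2 q1 q2 = eT K m n z + eD K m n d + eE K m n e +
      eP1 K m n p1 + eP2 K m n p2 + eQ1 K m n q1 + eQ2 K m n q2 := by
    unfold eT eD eE eP1 eP2 eQ1 eQ2
    simp only [mk_add, add_zero, zero_add]
  rw [hsum]
  exact add_mem (add_mem (add_mem (add_mem (add_mem (add_mem (hT z) (hD d)) (hE e)) (hP1 p1 h1))
    (hP2 p2 h2)) (hQ1 q1)) (hQ2 q2)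

lemma eT_mem (z : O) : eT K m n z ∈ I K m n := ⟨z, 0, 0, 0, 0, 0, 0, rfl, zero_mem _, zero_mem _⟩
lemma eQ1_mem (z : O) : eQ1 K m n z ∈ I K m n := ⟨0, 0, 0, 0, 0, z, 0, rfl, zero_mem _, zero_mem _⟩
lemma eQ2_mem (z : O) : eQ2 K m n z ∈ I K m n := ⟨0, 0, 0, 0, 0, 0, z, rfl, zero_mem _, zero_mem _⟩
lemma eP1_mem (q z : O) : eP1 K m n (n q z) ∈ I K m n :=
  ⟨0, 0, 0, _, 0, 0, 0, rfl, n_mem n q z, zero_mem _⟩
lemma eP2_mem (q z : O) : eP2 K m n (n q z) ∈ I K m n :=
  ⟨0, 0, 0, 0, _, 0, 0, rfl, zero_mem _, n_mem n q z⟩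

lemma eT_ne (z : O) (hz : z ≠ 0) : eT K m n z ≠ 0 := by
  intro h
  unfold eT at h
  rw [mk_zero] at h
  exact hz (mk_inj K m n h).2.2.1

lemma I_ne_bot (z : O) (hz : z ≠ 0) : I K m n ≠ ⊥ := by
  intro h
  have h1 := eT_mem K m n z
  rw [h, AddSubgroup.mem_bot] at h1
  exact eT_ne K m n z hz h1

lemma not_simple (z : O) (hz : z ≠ 0) : ¬ IsSimpleAsRing (I K m n) := by
  rintro ⟨-, h⟩
  let J : AddSubgroup (A K m n) :=
    { carrier := {x | ∃ d, x = eD K m n d}
      zero_mem' := ⟨0, rfl⟩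
      add_mem' := by
        rintro _ _ ⟨d, rfl⟩ ⟨d', rfl⟩
        exact ⟨d + d', by unfold eD; rw [mk_add]; simp⟩
      neg_mem' := by
        rintro _ ⟨d, rfl⟩
        exact ⟨-d, by unfold eD; rw [mk_neg]; simp⟩ }
  have hJ : IsIdealOf J (I K m n) := by
    constructor
    · rintro _ ⟨d, rfl⟩
      exact ⟨0, d, 0, 0, 0, 0, 0, rfl, zero_mem _, zero_mem _⟩
    · rintro _ ⟨z, d, e, p1, p2, q1, q2, rfl, -, -⟩ _ ⟨d', rfl⟩
      constructor
      · refine ⟨0, ?_⟩
        unfold eD; rw [mk_mul]; simp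
      · refine ⟨0, ?_⟩
        unfold eD; rw [mk_mul]; simp
  rcases h J hJ with h | h
  · have h1 : eD K m n z ∈ J := ⟨z, rfl⟩
    rw [h, AddSubgroup.mem_bot] at h1
    unfold eD at h1
    rw [mk_zero] at h1
    exact hz (mk_inj K m n h1).2.2.2.1
  · have h1 : eT K m n z ∈ J := by rw [h]; exact eT_mem K m n z
    obtain ⟨d, hd⟩ := h1
    unfold eT eD at hd
    exact hz (mk_inj K m n hd).2.2.1

/-- Odd and even words. -/
noncomputable def wds (y : ℕ → O) : ℕ → ℕ → O × P
  | 0, i => (y (2 * i), n (y (2 * i)) (y (2 * i + 1)))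
  | k + 1, i => (m (wds y k (2 * i)).2 (wds y k (2 * i + 1)).1,
      n (wds y k (2 * i)).1 (wds y k (2 * i + 1)).1)

lemma not_solvable (y : ℕ → O) (hy : ∀ k i, (wds m n y k i).1 ≠ 0) :
    ¬ IsSolvableIdeal (I K m n) := by
  have key : ∀ k i, eT K m n (wds m n y k i).1 ∈ derived (I K m n) k ∧
      eQ1 K m n (wds m n y k i).1 ∈ derived (I K m n) k ∧
      eQ2 K m n (wds m n y k i).1 ∈ derived (I K m n) k ∧
      eP1 K m n (wds m n y k i).2 ∈ derived (I K m n) k ∧
      eP2 K m n (wds m n y k i).2 ∈ derived (I K m n) k := by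
    intro k
    induction k with
    | zero =>
      intro i
      exact ⟨eT_mem K m n _, eQ1_mem K m n _, eQ2_mem K m n _, eP1_mem K m n _ _,
        eP2_mem K m n _ _⟩
    | succ k ih =>
      intro i
      obtain ⟨a1, a2, a3, a4, a5⟩ := ih (2 * i)
      obtain ⟨b1, b2, b3, b4, b5⟩ := ih (2 * i + 1)
      have hm : ∀ x ∈ derived (I K m n) k, ∀ y ∈ derived (I K m n) k,
          x * y ∈ derived (I K m n) (k + 1) := fun x hx y hy =>
        AddSubgroup.subset_closure ⟨x, hx, y, hy, rfl⟩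
      refine ⟨?_, ?_, ?_, ?_, ?_⟩
      · have h := hm _ a4 _ b3; rwa [P1_Q2] at h
      · have h := hm _ a4 _ b1; rwa [P1_T] at h
      · have h := hm _ a5 _ b1; rwa [P2_T] at h
      · have h := hm _ a2 _ b1; rwa [Q1_T] at h
      · have h := neg_mem (hm _ a3 _ b1); rwa [Q2_T, neg_neg] at h
  rintro ⟨k, hk⟩
  have h := (key k 0).1
  rw [hk, AddSubgroup.mem_bot] at h
  exact eT_ne K m n _ (hy k 0) h

end Abstract

lemma derived_le_rightPow {R : Type} [NonUnitalNonAssocRing R] (I : AddSubgroup R)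
    (hI : IsIdeal I) (k : ℕ) : derived I k ≤ rightPow I k ∧ derived I k ≤ I := by
  induction k with
  | zero => exact ⟨le_rfl, le_rfl⟩
  | succ k ih =>
    constructor
    · refine AddSubgroup.closure_mono ?_
      rintro _ ⟨a, ha, b, hb, rfl⟩
      exact ⟨a, ih.1 ha, b, ih.2 hb, rfl⟩
    · refine (AddSubgroup.closure_le _).mpr ?_
      rintro _ ⟨a, ha, b, hb, rfl⟩
      exact (hI a b (ih.2 hb)).1

/-! ### A Grassmann ring with parity automorphism -/

section Parity

variable {K L : Type} [Field K] [Ring L] [Algebra K L] (σ : L →ₐ[K] L)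

/-- odd elements of square zero -/
def IsOdd (x : L) : Prop := (∀ y, x * y = σ y * x) ∧ σ x = -x ∧ x * x = 0

/-- central elements fixed by `σ` -/
def IsEv (x : L) : Prop := (∀ y, x * y = y * x) ∧ σ x = x

variable {σ}

lemma IsOdd.anti {x y : L} (hx : IsOdd σ x) (hy : IsOdd σ y) : x * y = -(y * x) := by
  rw [hx.1, hy.2.1, neg_mul]

variable (σ)

/-- The odd part. -/
def Od : Submodule K L where
  carrier := {x | IsOdd σ x}
  zero_mem' := ⟨fun y => by simp, by simp, by simp⟩
  add_mem' := by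
    intro x y hx hy
    refine ⟨fun z => ?_, ?_, ?_⟩
    · rw [add_mul, hx.1, hy.1, mul_add]
    · rw [map_add, hx.2.1, hy.2.1]; abel
    · rw [add_mul, mul_add, mul_add, hx.2.2, hy.2.2, hx.anti hy]; abel
  smul_mem' := by
    intro c x hx
    refine ⟨fun z => ?_, ?_, ?_⟩
    · rw [smul_mul_assoc, hx.1, mul_smul_comm]
    · rw [map_smul, hx.2.1, smul_neg]
    · rw [smul_mul_smul_comm, hx.2.2, smul_zero]

/-- The even part. -/
def Ev : Submodule K L where
  carrier := {x | IsEv σ x}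
  zero_mem' := ⟨fun y => by simp, by simp⟩
  add_mem' := by
    intro x y hx hy
    exact ⟨fun z => by rw [add_mul, hx.1, hy.1, mul_add], by rw [map_add, hx.2, hy.2]⟩
  smul_mem' := by
    intro c x hx
    exact ⟨fun z => by rw [smul_mul_assoc, hx.1, mul_smul_comm], by rw [map_smul, hx.2]⟩

lemma ev_mul_odd {x y : L} (hx : IsEv σ x) (hy : IsOdd σ y) : IsOdd σ (x * y) := by
  refine ⟨fun z => ?_, ?_, ?_⟩
  · rw [mul_assoc, hy.1, ← mul_assoc, hx.1, mul_assoc]
  · rw [map_mul, hx.2, hy.2.1, mul_neg]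
  · rw [mul_assoc, ← mul_assoc y, ← hx.1 y, mul_assoc x, hy.2.2, mul_zero, mul_zero]

lemma odd_mul_odd (hσ : ∀ y : L, σ (σ y) = y) {x y : L} (hx : IsOdd σ x) (hy : IsOdd σ y) :
    IsEv σ (x * y) := by
  refine ⟨fun z => ?_, ?_⟩
  · rw [mul_assoc, hy.1, ← mul_assoc, hx.1, hσ, mul_assoc]
  · rw [map_mul, hx.2.1, hy.2.1, neg_mul_neg]

/-- even times odd -/
def mm : Ev σ →+ Od σ →+ Od σ :=
  AddMonoidHom.mk' (fun p => AddMonoidHom.mk' (fun z => ⟨p.1 * z.1, ev_mul_odd σ p.2 z.2⟩)
    (fun a b => Subtype.ext (mul_add _ _ _)))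
    (fun a b => AddMonoidHom.ext fun z => Subtype.ext (add_mul _ _ _))

/-- odd times odd -/
def nn (hσ : ∀ y : L, σ (σ y) = y) : Od σ →+ Od σ →+ Ev σ :=
  AddMonoidHom.mk' (fun p => AddMonoidHom.mk' (fun z => ⟨p.1 * z.1, odd_mul_odd σ hσ p.2 z.2⟩)
    (fun a b => Subtype.ext (mul_add _ _ _)))
    (fun a b => AddMonoidHom.ext fun z => Subtype.ext (add_mul _ _ _))

lemma mm_coe (p : Ev σ) (z : Od σ) : (mm σ p z : L) = p.1 * z.1 := rfl
lemma nn_coe (hσ : ∀ y : L, σ (σ y) = y) (p z : Od σ) : (nn σ hσ p z : L) = p.1 * z.1 := rfl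

lemma ax (hσ : ∀ y : L, σ (σ y) = y) : Ax (mm σ) (nn σ hσ) where
  mn q z := Subtype.ext (by
    rw [mm_coe, nn_coe, mul_assoc, z.2.2.2, mul_zero]; rfl)
  nm p z := Subtype.ext (by
    rw [nn_coe, mm_coe, mul_assoc, z.2.2.2, mul_zero]; rfl)
  mm p p' z := Subtype.ext (by
    rw [mm_coe, mm_coe, mm_coe, mm_coe, ← mul_assoc, p.2.1, mul_assoc])
  mnq q q' z := Subtype.ext (by
    have h1 : IsEv σ (q'.1 * z.1) := odd_mul_odd σ hσ q'.2 z.2
    have h2 : z.1 * q'.1 = -(q'.1 * z.1) := IsOdd.anti z.2 q'.2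
    rw [NegMemClass.coe_neg, mm_coe, nn_coe, mm_coe, nn_coe, h1.1, mul_assoc, h2, mul_neg])

end Parity

/-! ### The exterior algebra -/

section Ext

variable (K : Type) [Field K]

/-- The exterior algebra of the polynomial space. -/
abbrev Lam : Type := ExteriorAlgebra K (Polynomial K)

noncomputable def sg : Lam K →ₐ[K] Lam K :=
  CliffordAlgebra.involute (Q := (0 : QuadraticForm K (Polynomial K)))

lemma sg_sg (y : Lam K) : sg K (sg K y) = y :=
  CliffordAlgebra.involute_involute (Q := (0 : QuadraticForm K (Polynomial K))) y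

lemma ι_odd (c : Polynomial K) : IsOdd (sg K) (ExteriorAlgebra.ι K c) := by
  refine ⟨fun y => ?_, CliffordAlgebra.involute_ι (Q := (0 : QuadraticForm K (Polynomial K))) c,
    ExteriorAlgebra.ι_sq_zero c⟩
  induction y using ExteriorAlgebra.induction with
  | algebraMap r => rw [AlgHom.commutes]; exact (Algebra.commutes r _).symm
  | ι x =>
    have h : sg K (ExteriorAlgebra.ι K x) = -(ExteriorAlgebra.ι K x) :=
      CliffordAlgebra.involute_ι (Q := (0 : QuadraticForm K (Polynomial K))) x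
    rw [h, neg_mul]
    exact eq_neg_of_add_eq_zero_left (ExteriorAlgebra.ι_add_mul_swap c x)
  | mul a b ha hb => rw [← mul_assoc, ha, mul_assoc, hb, map_mul, mul_assoc]
  | add a b ha hb => rw [mul_add, ha, hb, map_add, add_mul]

/-- The Grassmann generators. -/
noncomputable def yv (i : ℕ) : Od (sg K) :=
  ⟨ExteriorAlgebra.ι K (Polynomial.X ^ i : Polynomial K), ι_odd K _⟩

/-- Contraction with the `i`-th coordinate. -/
noncomputable def ctr (i : ℕ) : Lam K →ₗ[K] Lam K :=
  CliffordAlgebra.contractLeft (Q := (0 : QuadraticForm K (Polynomial K))) (Polynomial.lcoeff K i)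

lemma ctr_ι_mul (i : ℕ) (a : Polynomial K) (b : Lam K) :
    ctr K i (ExteriorAlgebra.ι K a * b) = a.coeff i • b - ExteriorAlgebra.ι K a * ctr K i b :=
  CliffordAlgebra.contractLeft_ι_mul (Q := (0 : QuadraticForm K (Polynomial K)))
    (Polynomial.lcoeff K i) a b

lemma ctr_mul (i k : ℕ) (b : Lam K) :
    ctr K i ((yv K k).1 * b) = (if k = i then b else 0) - (yv K k).1 * ctr K i b := by
  refine (ctr_ι_mul K i _ b).trans ?_
  congr 1
  rw [Polynomial.coeff_X_pow]
  by_cases hik : k = i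
  · rw [if_pos hik, if_pos hik.symm, one_smul]
  · rw [if_neg hik, if_neg (fun h => hik h.symm), zero_smul]

/-- Every element is killed by almost all contractions. -/
lemma ctr_eventually (x : Lam K) : ∃ N, ∀ i, N ≤ i → ctr K i x = 0 := by
  induction x using CliffordAlgebra.left_induction with
  | algebraMap r =>
    exact ⟨0, fun i _ => CliffordAlgebra.contractLeft_algebraMap
      (0 : QuadraticForm K (Polynomial K)) (Polynomial.lcoeff K i) r⟩
  | add a b ha hb =>
    obtain ⟨N, hN⟩ := ha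
    obtain ⟨M, hM⟩ := hb
    refine ⟨max N M, fun i hi => ?_⟩
    rw [map_add, hN i (le_trans (le_max_left _ _) hi), hM i (le_trans (le_max_right _ _) hi),
      add_zero]
  | ι_mul a v ha =>
    obtain ⟨N, hN⟩ := ha
    refine ⟨max N (v.natDegree + 1), fun i hi => ?_⟩
    refine (ctr_ι_mul K i v a).trans ?_
    have h1 : v.natDegree < i := lt_of_lt_of_le (Nat.lt_succ_self _)
      (le_trans (le_max_right _ _) hi)
    rw [hN i (le_trans (le_max_left _ _) hi), Polynomial.coeff_eq_zero_of_natDegree_lt h1,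
      zero_smul, mul_zero, sub_zero]

lemma faithful (p : Ev (sg K)) (hp : ∀ w, mm (sg K) p w = 0) : p = 0 := by
  obtain ⟨N, hN⟩ := ctr_eventually K p.1
  have h := hp (yv K N)
  have h1 : (yv K N).1 * p.1 = 0 := by
    rw [← p.2.1]; exact congrArg Subtype.val h
  have h2 := ctr_mul K N N p.1
  rw [h1, map_zero, if_pos rfl, hN N le_rfl, mul_zero, sub_zero] at h2
  exact Subtype.ext h2.symm

/-- The monomial attached to an index list. -/
noncomputable def wd (l : List ℕ) : Lam K := (l.map fun i => (yv K i).1).prod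

lemma wd_append (l l' : List ℕ) : wd K (l ++ l') = wd K l * wd K l' := by simp [wd]

lemma ctr_wd (i : ℕ) (l : List ℕ) (hi : i ∉ l) : ctr K i (wd K l) = 0 := by
  induction l with
  | nil =>
    exact CliffordAlgebra.contractLeft_one (0 : QuadraticForm K (Polynomial K))
      (Polynomial.lcoeff K i)
  | cons k l ih =>
    rw [List.mem_cons, not_or] at hi
    have : wd K (k :: l) = (yv K k).1 * wd K l := by simp [wd]
    rw [this, ctr_mul, if_neg (fun h => hi.1 h.symm), ih hi.2, mul_zero, sub_zero]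

lemma wd_ne (l : List ℕ) (hl : l.Nodup) : wd K l ≠ 0 := by
  induction l with
  | nil => simp [wd]
  | cons k l ih =>
    rw [List.nodup_cons] at hl
    intro h
    have e : wd K (k :: l) = (yv K k).1 * wd K l := by simp [wd]
    have h2 := ctr_mul K k k (wd K l)
    rw [← e, h, map_zero, if_pos rfl, ctr_wd K k l hl.1, mul_zero, sub_zero] at h2
    exact ih hl.2 h2.symm

/-- Index lists of the words. -/
def W : ℕ → ℕ → List ℕ × List ℕ
  | 0, n => ([2 * n], [2 * n, 2 * n + 1])
  | k + 1, n => ((W k (2 * n)).2 ++ (W k (2 * n + 1)).1, (W k (2 * n)).1 ++ (W k (2 * n + 1)).1)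

lemma W_bounds (k n : ℕ) :
    (∀ i ∈ (W k n).1, n * 2 ^ (k + 1) ≤ i ∧ i < (n + 1) * 2 ^ (k + 1)) ∧
    (∀ i ∈ (W k n).2, n * 2 ^ (k + 1) ≤ i ∧ i < (n + 1) * 2 ^ (k + 1)) := by
  induction k generalizing n with
  | zero =>
    simp only [W, List.mem_cons, List.not_mem_nil, or_false]
    refine ⟨?_, ?_⟩ <;> intro i hi <;> omega
  | succ k ih =>
    obtain ⟨h1, h2⟩ := ih (2 * n)
    obtain ⟨h3, h4⟩ := ih (2 * n + 1)
    have e : 2 ^ (k + 1 + 1) = 2 * 2 ^ (k + 1) := pow_succ' 2 (k + 1)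
    have hp : 0 < 2 ^ (k + 1) := by positivity
    constructor
    · intro i hi
      rw [W, List.mem_append] at hi
      rcases hi with hi | hi
      · have := h2 i hi; rw [e]; constructor <;> nlinarith
      · have := h3 i hi; rw [e]; constructor <;> nlinarith
    · intro i hi
      rw [W, List.mem_append] at hi
      rcases hi with hi | hi
      · have := h1 i hi; rw [e]; constructor <;> nlinarith
      · have := h3 i hi; rw [e]; constructor <;> nlinarith

lemma W_nodup (k n : ℕ) : (W k n).1.Nodup ∧ (W k n).2.Nodup := by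
  induction k generalizing n with
  | zero => simp [W]
  | succ k ih =>
    obtain ⟨h1, h2⟩ := ih (2 * n)
    obtain ⟨h3, h4⟩ := ih (2 * n + 1)
    have b := W_bounds k (2 * n)
    have b' := W_bounds k (2 * n + 1)
    constructor
    · rw [W]
      refine List.Nodup.append h2 h3 ?_
      intro i hi hi'
      have := b.2 i hi
      have := b'.1 i hi'
      omega
    · rw [W]
      refine List.Nodup.append h1 h3 ?_
      intro i hi hi'
      have := b.1 i hi
      have := b'.1 i hi'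
      omega

lemma wds_eq (k i : ℕ) :
    (wds (mm (sg K)) (nn (sg K) (sg_sg K)) (yv K) k i).1.1 = wd K (W k i).1 ∧
    (wds (mm (sg K)) (nn (sg K) (sg_sg K)) (yv K) k i).2.1 = wd K (W k i).2 := by
  induction k generalizing i with
  | zero =>
    constructor
    · simp [wds, wd, W]
    · rw [wds, nn_coe]; simp [wd, W]
  | succ k ih =>
    constructor
    · rw [wds, mm_coe, (ih _).2, (ih _).1, W, wd_append]
    · rw [wds, nn_coe, (ih _).1, (ih _).1, W, wd_append]

lemma wds_ne (k i : ℕ) : (wds (mm (sg K)) (nn (sg K) (sg_sg K)) (yv K) k i).1 ≠ 0 := by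
  intro h
  have h1 := (wds_eq K k i).1
  rw [h] at h1
  exact wd_ne K _ (W_nodup k i).1 h1.symm

theorem main (c : ℕ) [CharP K c] :
    ∃ (R : Type) (_ : NonUnitalNonAssocRing R),
      (∀ (n : ℕ) (x : R), x ≠ 0 → (n • x = 0 ↔ c ∣ n)) ∧
      RightAlternative R ∧
      (∀ x y z : R, ((x * y) * z) * y = x * ((y * z) * y)) ∧
      ∃ I : AddSubgroup R, IsMinimalIdeal I ∧ ¬ IsSimpleAsRing I ∧ ¬ IsSolvableIdeal I ∧
        ¬ IsRightNilpotent I := by
  have hy0 : yv K 0 ≠ 0 := by
    have h := wds_ne K 0 0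
    simpa [wds] using h
  refine ⟨A K (mm (sg K)) (nn (sg K) (sg_sg K)), inferInstance, ?_, right_alt K (ax (sg K) _),
    moufang K (ax (sg K) _), I K _ _, ⟨I_ideal K _ _, I_ne_bot K _ _ (yv K 0) hy0, ?_⟩,
    not_simple K _ _ (yv K 0) hy0, not_solvable K _ _ (yv K) (wds_ne K), ?_⟩
  · intro n x hx
    have h : ∀ x : V K (Ev (sg K)) (Od (sg K)), x ≠ 0 → (n • x = 0 ↔ c ∣ n) := by
      intro x hx
      rw [← Nat.cast_smul_eq_nsmul K n x, smul_eq_zero, ← CharP.cast_eq_zero_iff K c n]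
      exact ⟨fun h => h.resolve_right hx, fun h => Or.inl h⟩
    exact h x hx
  · intro J hJ hJI
    refine minimal K _ _ ⟨1, fun y => by simp, map_one _⟩ (fun z => Subtype.ext ?_)
      (faithful K) J hJ hJI
    rw [mm_coe, one_mul]
  · rintro ⟨k, hk⟩
    refine not_solvable K _ _ (yv K) (wds_ne K) ⟨k, ?_⟩
    rw [eq_bot_iff, ← hk]
    exact (derived_le_rightPow _ (I_ideal K _ _) k).1

end Ext

/-- In every characteristic `c` (`c = 0` or `c` prime) there is a right alternative ring, which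
also satisfies the right Moufang identity, with a minimal ideal that is neither simple as a ring,
nor solvable, nor right nilpotent. For `c = 0` its additive group is torsion-free, for `c` prime
every nonzero element has additive order `c`. -/
theorem result (c : ℕ) (hc : c = 0 ∨ c.Prime) :
    ∃ (R : Type) (_ : NonUnitalNonAssocRing R),
      (∀ (n : ℕ) (x : R), x ≠ 0 → (n • x = 0 ↔ c ∣ n)) ∧
      RightAlternative R ∧
      (∀ x y z : R, ((x * y) * z) * y = x * ((y * z) * y)) ∧
      ∃ I : AddSubgroup R, IsMinimalIdeal I ∧ ¬ IsSimpleAsRing I ∧ ¬ IsSolvableIdeal I ∧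
        ¬ IsRightNilpotent I := by
  rcases hc with rfl | hc
  · exact main ℚ 0
  · have : Fact c.Prime := ⟨hc⟩
    exact main (ZMod c) c

end Pool.Agent.Results.MP_c4a975_al.EveryCharacteristic
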