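import Mathlib

set_option autoImplicit false

namespace Pool.Agent.Results.MP_c4a975_al.MinimalIdeal

/-- The ring `R` (not assumed associative, commutative or unital) is right alternative. -/
def RightAlternative (R : Type) [NonUnitalNonAssocRing R] : Prop :=
  ∀ x y : R, (x * y) * y = x * (y * y)

variable {R : Type} [NonUnitalNonAssocRing R]

/-- The additive subgroup spanned by all products `a * b` with `a` in `A` and `b` in `B`. -/
def prod (A B : AddSubgroup R) : AddSubgroup R :=
  AddSubgroup.closure {z | ∃ a ∈ A, ∃ b ∈ B, z = a * b}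

/-- `I` is a two-sided ideal of `R`. -/
def IsIdeal (I : AddSubgroup R) : Prop := ∀ r : R, ∀ a ∈ I, r * a ∈ I ∧ a * r ∈ I

/-- `I` is a minimal ideal of `R`. -/
def IsMinimalIdeal (I : AddSubgroup R) : Prop :=
  IsIdeal I ∧ I ≠ ⊥ ∧ ∀ J : AddSubgroup R, IsIdeal J → J ≤ I → J = ⊥ ∨ J = I

/-- `J` is a two-sided ideal of the ring `I`. -/
def IsIdealOf (J I : AddSubgroup R) : Prop :=
  J ≤ I ∧ ∀ r ∈ I, ∀ a ∈ J, r * a ∈ J ∧ a * r ∈ J

/-- `I` is simple as a ring. -/
def IsSimpleAsRing (I : AddSubgroup R) : Prop :=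
  prod I I ≠ ⊥ ∧ ∀ J : AddSubgroup R, IsIdealOf J I → J = ⊥ ∨ J = I

/-- The derived series of `I`. -/
def derived (I : AddSubgroup R) : ℕ → AddSubgroup R
  | 0 => I
  | k + 1 => prod (derived I k) (derived I k)

/-- `I` is solvable. -/
def IsSolvableIdeal (I : AddSubgroup R) : Prop := ∃ k, derived I k = ⊥

/-- The right powers of `I`: `rightPow I n` is the `(n + 1)`-st right power. -/
def rightPow (I : AddSubgroup R) : ℕ → AddSubgroup R
  | 0 => I
  | n + 1 => prod (rightPow I n) I

/-- `I` is right nilpotent. -/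
def IsRightNilpotent (I : AddSubgroup R) : Prop := ∃ n, rightPow I n = ⊥

/-! ### The example: `F₂[x]/(x²) ⊕ F₂ t` with `a t = a'`, `t a = 0`, `t t = 0` -/

/-- The triple `(a, b, c)` stands for `a + b x + c t`. -/
@[ext] structure A3 where
  a : ZMod 2
  b : ZMod 2
  c : ZMod 2
deriving DecidableEq, Fintype

namespace A3

instance : Zero A3 := ⟨⟨0, 0, 0⟩⟩
instance : Add A3 := ⟨fun u v => ⟨u.a + v.a, u.b + v.b, u.c + v.c⟩⟩
instance : Neg A3 := ⟨fun u => u⟩
instance : Mul A3 := ⟨fun u v => ⟨u.a * v.a + u.b * v.c, u.a * v.b + u.b * v.a, 0⟩⟩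

lemma add_a (u v : A3) : (u + v).a = u.a + v.a := rfl
lemma add_b (u v : A3) : (u + v).b = u.b + v.b := rfl
lemma add_c (u v : A3) : (u + v).c = u.c + v.c := rfl
lemma mul_a (u v : A3) : (u * v).a = u.a * v.a + u.b * v.c := rfl
lemma mul_b (u v : A3) : (u * v).b = u.a * v.b + u.b * v.a := rfl
lemma mul_c (u v : A3) : (u * v).c = 0 := rfl

instance : AddCommGroup A3 where
  add_assoc u v w := by ext <;> simp only [add_a, add_b, add_c, add_assoc]
  zero_add := by decide
  add_zero := by decide
  add_comm u v := by ext <;> simp only [add_a, add_b, add_c, add_comm]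
  neg_add_cancel := by decide
  nsmul := nsmulRec
  zsmul := zsmulRec

instance : NonUnitalNonAssocRing A3 where
  left_distrib u v w := by
    ext
    · simp only [add_a, mul_a, add_c]; ring
    · simp only [add_a, mul_b, add_b]; ring
    · simp only [add_c, mul_c]; ring
  right_distrib u v w := by
    ext
    · simp only [add_a, mul_a, add_b]; ring
    · simp only [add_a, mul_b, add_b]; ring
    · simp only [add_c, mul_c]; ring
  zero_mul := by decide
  mul_zero := by decide

/-- The ideal `F₂[x]/(x²)`. -/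
def I : AddSubgroup A3 where
  carrier := {u | u.c = 0}
  zero_mem' := rfl
  add_mem' := by
    intro u v hu hv
    show u.c + v.c = 0
    rw [show u.c = 0 from hu, show v.c = 0 from hv, add_zero]
  neg_mem' := fun h => h

/-- The subgroup `F₂ x`. -/
def J : AddSubgroup A3 where
  carrier := {u | u.a = 0 ∧ u.c = 0}
  zero_mem' := ⟨rfl, rfl⟩
  add_mem' := by
    intro u v hu hv
    refine ⟨?_, ?_⟩
    · show u.a + v.a = 0
      rw [hu.1, hv.1, add_zero]
    · show u.c + v.c = 0
      rw [hu.2, hv.2, add_zero]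
  neg_mem' := fun h => h

lemma mem_I (u : A3) : u ∈ I ↔ u.c = 0 := Iff.rfl
lemma mem_J (u : A3) : u ∈ J ↔ u.a = 0 ∧ u.c = 0 := Iff.rfl

/-- The identity element of the ideal. -/
def one : A3 := ⟨1, 0, 0⟩
/-- The element `x`. -/
def x : A3 := ⟨0, 1, 0⟩
/-- The element `t`. -/
def t : A3 := ⟨0, 0, 1⟩

lemma rightAlt : RightAlternative A3 := by
  unfold RightAlternative
  decide

lemma idealI : IsIdeal I := by
  intro r a _
  exact ⟨rfl, rfl⟩

lemma mul_one' (u : A3) (h : u.c = 0) : u * one = u := by
  revert u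
  decide

lemma one_mul' (u : A3) (h : u.c = 0) : one * u = u := by
  revert u
  decide

lemma minimalI : IsMinimalIdeal I := by
  refine ⟨idealI, ?_, ?_⟩
  · intro h
    have h1 : one ∈ I := rfl
    rw [h, AddSubgroup.mem_bot] at h1
    exact absurd h1 (by decide)
  · intro K hK hKI
    by_cases h : K = ⊥
    · exact Or.inl h
    right
    apply le_antisymm hKI
    have hex : ∃ u : A3, u ∈ K ∧ u ≠ 0 := by
      by_contra hcon
      push Not at hcon
      apply h
      rw [AddSubgroup.eq_bot_iff_forall]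
      exact hcon
    obtain ⟨u, hu, hu0⟩ := hex
    have huI : u.c = 0 := hKI hu
    -- a nonzero element of `K` gives the identity element of `I`
    have hone : one ∈ K := by
      have key : ∀ u : A3, u.c = 0 → u ≠ 0 → u = one ∨ u * t = one := by decide
      rcases key u huI hu0 with h1 | h1
      · rw [← h1]; exact hu
      · rw [← h1]; exact (hK t u hu).2
    intro v hv
    have : v * one = v := mul_one' v hv
    rw [← this]
    exact (hK v one hone).1

lemma not_simple : ¬ IsSimpleAsRing I := by
  rintro ⟨_, h⟩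
  have hJ : IsIdealOf J I := by
    refine ⟨fun u hu => hu.2, ?_⟩
    have key : ∀ r a : A3, r.c = 0 → a.a = 0 ∧ a.c = 0 →
        ((r * a).a = 0 ∧ (r * a).c = 0) ∧ ((a * r).a = 0 ∧ (a * r).c = 0) := by decide
    intro r hr a ha
    exact key r a hr ha
  rcases h J hJ with h1 | h1
  · have h2 : x ∈ J := ⟨rfl, rfl⟩
    rw [h1, AddSubgroup.mem_bot] at h2
    exact absurd h2 (by decide)
  · have h2 : one ∈ I := rfl
    rw [← h1] at h2
    exact absurd h2.1 (by decide)

lemma prod_self : prod I I = I := by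
  apply le_antisymm
  · rw [prod, AddSubgroup.closure_le]
    rintro z ⟨a, _, b, _, rfl⟩
    rfl
  · intro u hu
    rw [prod]
    apply AddSubgroup.subset_closure
    exact ⟨u, hu, one, rfl, (mul_one' u hu).symm⟩

lemma ne_bot : I ≠ ⊥ := minimalI.2.1

lemma not_solvable : ¬ IsSolvableIdeal I := by
  rintro ⟨k, hk⟩
  have : ∀ k, derived I k = I := by
    intro k
    induction k with
    | zero => rfl
    | succ k ih => rw [derived, ih, prod_self]
  rw [this k] at hk
  exact ne_bot hk

lemma not_rightNilpotent : ¬ IsRightNilpotent I := by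
  rintro ⟨k, hk⟩
  have : ∀ k, rightPow I k = I := by
    intro k
    induction k with
    | zero => rfl
    | succ k ih => rw [rightPow, ih, prod_self]
  rw [this k] at hk
  exact ne_bot hk

end A3

/-- Some right alternative ring has a minimal ideal that is neither simple as a ring nor solvable
nor right nilpotent. -/
theorem result : ∃ (R : Type) (_ : NonUnitalNonAssocRing R) (I : AddSubgroup R),
    RightAlternative R ∧ IsMinimalIdeal I ∧ ¬ IsSimpleAsRing I ∧ ¬ IsSolvableIdeal I ∧
      ¬ IsRightNilpotent I :=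
  ⟨A3, inferInstance, A3.I, A3.rightAlt, A3.minimalI, A3.not_simple, A3.not_solvable,
    A3.not_rightNilpotent⟩

end Pool.Agent.Results.MP_c4a975_al.MinimalIdeal
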